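import Mathlib
import Pool.Agent.H89.HS4

set_option autoImplicit false

namespace Pool.Agent.Results.MP_6efe58_an.WeakHeat

open scoped ComplexConjugate InnerProductSpace

variable {G : Type} [Group G] [DecidableEq G]

/-- The Hilbert space of square summable functions on `G`. -/
def L2 (G : Type) : Type := lp (fun _ : G => ℂ) 2

noncomputable instance i1 (G : Type) : NormedAddCommGroup (L2 G) :=
  (inferInstance : NormedAddCommGroup (lp (fun _ : G => ℂ) 2))

noncomputable instance i2 (G : Type) : InnerProductSpace ℂ (L2 G) :=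
  (inferInstance : InnerProductSpace ℂ (lp (fun _ : G => ℂ) 2))

instance i3 (G : Type) : CompleteSpace (L2 G) :=
  (inferInstance : CompleteSpace (lp (fun _ : G => ℂ) 2))

/-- Bounded operators. -/
abbrev Op (G : Type) : Type := L2 G →L[ℂ] L2 G

/-- The point mass at `g`. -/
noncomputable def dirac (g : G) : L2 G := lp.single 2 g 1

/-- Normalized circle valued 2-cocycles. -/
def IsCocycle (σ : G → G → Circle) : Prop :=
  (∀ g, σ g 1 = 1) ∧ (∀ g, σ 1 g = 1) ∧
    ∀ g h k, σ g h * σ (g * h) k = σ h k * σ g (h * k)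

/-- `Λ` is the twisted left regular representation. -/
def IsReg (σ : G → G → Circle) (Λ : G → Op G) : Prop :=
  ∀ g h, Λ g (dirac h) = (σ g h : ℂ) • dirac (g * h)

/-- The linear span of the operators `Λ g`. -/
def Span (Λ : G → Op G) : Set (Op G) := Submodule.span ℂ (Set.range Λ)

/-- The reduced twisted group C*-algebra: norm closure of the span. -/
def Cr (Λ : G → Op G) : Set (Op G) := closure (Span Λ)

/-- The twisted group von Neumann algebra: weak operator closure of the span. -/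
def vN (Λ : G → Op G) : Set (Op G) :=
  {x | ContinuousLinearMapWOT.ofCLM x ∈ closure (ContinuousLinearMapWOT.ofCLM '' Span Λ)}

/-- Fourier coefficients: the coordinates of `x` applied to the point mass at the unit. -/
noncomputable def hat (x : Op G) (g : G) : ℂ := ⟪dirac g, x (dirac 1)⟫_ℂ

/-- Elements of the reduced algebra whose Fourier series converges in norm as an unordered sum. -/
def CF (Λ : G → Op G) : Set (Op G) := {x | x ∈ Cr Λ ∧ Summable fun g => hat x g • Λ g}

/-- `M` restricts to a bounded linear map from `A` to `A`. -/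
def BddLin (A : Set (Op G)) (M : Op G → Op G) : Prop :=
  (∀ x ∈ A, M x ∈ A) ∧ (∀ x ∈ A, ∀ y ∈ A, M (x + y) = M x + M y) ∧
    (∀ c : ℂ, ∀ x ∈ A, M (c • x) = c • M x) ∧ ∃ C : ℝ, ∀ x ∈ A, ‖M x‖ ≤ C * ‖x‖

/-- `M` multiplies each `Λ g` by the heat factor. -/
def Heat (Λ : G → Op G) (d : G → ℝ) (t : ℝ) (M : Op G → Op G) : Prop :=
  ∀ g, M (Λ g) = (Real.exp (-(t * d g)) : ℂ) • Λ g

/-- Negative definite functions with values in the nonnegative reals, vanishing at the unit. -/
def ND0 (d : G → ℝ) : Prop :=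
  (∀ g, 0 ≤ d g) ∧ d 1 = 0 ∧ (∀ g, d g⁻¹ = d g) ∧
    ∀ (n : ℕ) (g : Fin n → G) (b : Fin n → ℂ), ∑ i, b i = 0 →
      (∑ i, ∑ j, conj (b i) * b j * (d ((g i)⁻¹ * g j) : ℂ)).re ≤ 0

/-- Property (T) in the form used by the problem. -/
def PropT (G : Type) [Group G] : Prop := ∀ d : G → ℝ, ND0 d → BddAbove (Set.range d)

noncomputable def bas (G : Type) : HilbertBasis G ℂ (L2 G) :=
  (default : HilbertBasis G ℂ (lp (fun _ : G => ℂ) 2))

omit [Group G] in
lemma b_eq (g : G) : bas G g = dirac g := by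
  rw [← HilbertBasis.repr_symm_single]
  rfl

open Pool.Agent.H89.HS in
theorem result (G : Type) [Group G] [DecidableEq G] [Countable G] [Infinite G] (hT : ¬ PropT G)
    (σ : G → G → Circle) (hσ : IsCocycle σ) :
    (∃ Λ, IsReg σ Λ) ∧ ∀ Λ, IsReg σ Λ → ∃ (d : G → ℝ) (t : ℝ) (x y : Op G),
      ND0 d ∧ 0 < t ∧ x ∈ vN Λ ∧ x ∈ Cr Λ ∧ x ∉ CF Λ ∧ y ∈ CF Λ ∧
      (∀ g, hat y g = (Real.exp (-(t * d g)) : ℂ) * hat x g) ∧
      ∀ M, BddLin (vN Λ) M → Heat Λ d t M → M x = y := by
  have hb := (bas G).orthonormal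
  constructor
  · have ho : ∀ g, Orthonormal ℂ fun h => (σ g h : ℂ) • dirac (g * h) := by
      intro g
      rw [orthonormal_iff_ite]
      intro i j
      rw [inner_smul_left, inner_smul_right, ← b_eq, ← b_eq, orthonormal_iff_ite.1 hb]
      by_cases h : i = j
      · subst h
        simp [Complex.conj_mul']
      · simp [h]
    refine ⟨fun g => (ho g).orthogonalFamily.linearIsometry.toContinuousLinearMap, fun g h => ?_⟩
    have := (ho g).orthogonalFamily.linearIsometry_apply_single (i := h) (1 : ℂ)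
    exact this.trans (one_smul _ _)
  intro Λ hΛ
  let S : Sys G (L2 G) :=
    { b := bas G, U := Λ, σ := fun g h => σ g h, nσ := fun g h => Circle.norm_coe _,
      σ1 := fun g => by rw [hσ.1]; rfl, σ1' := fun g => by rw [hσ.2.1]; rfl,
      coc := fun g h k => by rw [← Circle.coe_mul, ← Circle.coe_mul, hσ.2.2],
      Ub := fun g h => by rw [b_eq, b_eq]; exact hΛ g h }
  have hco : ∀ x g, hat x g = S.co x g := by
    intro x g
    show _ = ⟪bas G g, x (bas G 1)⟫_ℂ
    rw [b_eq, b_eq, hat]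
  unfold PropT at hT
  push Not at hT
  obtain ⟨d, hd, hu⟩ := hT
  have du : ∀ r, ∃ g, r < d g := fun r => by
    obtain ⟨_, ⟨g, rfl⟩, h⟩ := not_bddAbove_iff.1 hu r
    exact ⟨g, h⟩
  have dt : ∀ h f, d h ≤ 2 * d (h * f) + 2 * d f := by
    intro h f
    have := hd.2.2.2 3 ![1, h, h * f] ![1, 1, -2] (by simp [Fin.sum_univ_three]; norm_num)
    have e1 := hd.2.2.1 h
    have e2 := hd.2.2.1 (h * f)
    have e3 := hd.2.2.1 f
    rw [mul_inv_rev] at e2
    simp [Fin.sum_univ_three, hd.2.1, e1, e2, e3, map_ofNat] at this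
    linarith
  obtain ⟨x, y, E, k, h1, h2, h3, h4, h5⟩ := S.main d hd.1 du dt
  have hx : x ∈ Cr Λ := S.mem_clos h1 fun n => S.pol_mem _ _
  have hy : y ∈ Cr Λ := S.mem_clos h2 fun n => S.pol_mem _ _
  have hle : Cr Λ ⊆ vN Λ := by
    intro z hz
    exact map_mem_closure ContinuousLinearMapWOT.continuous_ofCLM hz fun w hw => ⟨w, hw, rfl⟩
  refine ⟨d, 1, x, y, hd, one_pos, hle hx, hx, fun h => h3 ?_, ⟨hy, ?_⟩, fun g => ?_,
    fun M hM hH => ?_⟩
  · simpa only [hco] using h.2
  · simpa only [hco] using h4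
  · simpa only [hco, one_mul] using h5 g
  · let V : Submodule ℂ (Op G) := (Submodule.span ℂ (Set.range Λ)).topologicalClosure
    have hV : ∀ z : V, z.1 ∈ vN Λ := fun z => hle z.2
    obtain ⟨-, m1, m2, C, m3⟩ := hM
    let L : V →ₗ[ℂ] Op G :=
      { toFun := fun z => M z.1
        map_add' := fun a b => m1 _ (hV a) _ (hV b)
        map_smul' := fun c a => m2 c _ (hV a) }
    let L' : V →L[ℂ] Op G := L.mkContinuous C fun z => m3 _ (hV z)
    let u : G → V := fun g =>
      ⟨Λ g, Submodule.le_topologicalClosure _ (Submodule.subset_span ⟨g, rfl⟩)⟩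
    have ind : Topology.IsInducing V.subtype := Topology.IsInducing.subtypeVal
    have e1 : HasSum (fun n => ∑ g ∈ E n, k n g • u g) (⟨x, hx⟩ : V) := by
      rw [← ind.hasSum_iff]
      refine h1.congr_fun fun n => ?_
      simp [Sys.pol, u, S]
    have hu : ∀ g, L' (u g) = (Real.exp (-(1 * d g)) : ℂ) • Λ g := fun g => hH g
    have e2 : HasSum (fun n => L' (∑ g ∈ E n, k n g • u g)) y := by
      refine h2.congr_fun fun n => ?_
      simp only [map_sum, map_smul, hu]
      simp [Sys.pol, S, smul_smul, mul_comm]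
    exact (L'.hasSum e1).unique e2

end Pool.Agent.Results.MP_6efe58_an.WeakHeat
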